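import Pool.Agent.helper10.OM.SpecG

/-!
# Project OM (MP_bf63dc_nt), row om:GOA
-/

set_option autoImplicit false

namespace Pool.Agent.OM

open Finset Real Pool.Agent.AT Pool.Agent.helper85.FC

/-- `GQ` depends only on the quotient -/
theorem GOA_GQ (ε : ℝ) (c u v : ℕ) (hc : 0 < c) : GQ ε (c * u) (c * v) ↔ GQ ε u v := by
  unfold GQ
  rw [Nat.gcd_mul_left, Nat.mul_div_mul_left _ _ hc, Nat.mul_div_mul_left _ _ hc]

/-- the elements of `F` -/
def GOA_e (a b L : ℕ) (q : ℕ × ℕ) : ℕ := q.1 * a ^ q.2 * b ^ (L - q.2)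

theorem GOA_fac (a b L : ℕ) (ha : 1 ≤ a) (hb : 1 ≤ b) (q : ℕ × ℕ) (hq : 0 < q.1) (l : ℕ) :
    (GOA_e a b L q).factorization l =
      q.1.factorization l + q.2 * a.factorization l + (L - q.2) * b.factorization l := by
  unfold GOA_e
  have h1 : q.1 ≠ 0 := hq.ne'
  have h2 : a ^ q.2 ≠ 0 := pow_ne_zero _ (by omega)
  have h3 : b ^ (L - q.2) ≠ 0 := pow_ne_zero _ (by omega)
  rw [Nat.factorization_mul (mul_ne_zero h1 h2) h3, Nat.factorization_mul h1 h2, Nat.factorization_pow,
    Nat.factorization_pow]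
  simp

theorem GOA_inj (a b L : ℕ) (ha : 1 ≤ a) (hb : 1 ≤ b) (hab : Nat.Coprime a b) (hne : a ≠ b) (A : Finset ℕ)
    (hA : ∀ s ∈ A, 0 < s ∧ Nat.Coprime s (a * b)) :
    Set.InjOn (GOA_e a b L) (A ×ˢ range L : Finset (ℕ × ℕ)) := by
  rintro ⟨s, i⟩ h1 ⟨t, j⟩ h2 h
  rw [mem_coe, mem_product, mem_range] at h1 h2
  obtain ⟨hs, hi⟩ := h1
  obtain ⟨ht, hj⟩ := h2
  simp only at hs hi ht hj
  have hs' := hA s hs
  have ht' := hA t ht
  have hsa : Nat.Coprime s a := Nat.Coprime.coprime_mul_right_right hs'.2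
  have hsb : Nat.Coprime s b := Nat.Coprime.coprime_mul_left_right hs'.2
  have hta : Nat.Coprime t a := Nat.Coprime.coprime_mul_right_right ht'.2
  have htb : Nat.Coprime t b := Nat.Coprime.coprime_mul_left_right ht'.2
  have hfac : ∀ l, s.factorization l + i * a.factorization l + (L - i) * b.factorization l =
      t.factorization l + j * a.factorization l + (L - j) * b.factorization l := by
    intro l
    have e1 := GOA_fac a b L ha hb (s, i) hs'.1 l
    have e2 := GOA_fac a b L ha hb (t, j) ht'.1 l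
    rw [h] at e1
    simp only at e1 e2
    rw [← e1, ← e2]
  have hz : ∀ l u v : ℕ, l.Prime → l ∣ v → Nat.Coprime u v → u.factorization l = 0 := by
    intro l u v hl hlv huv
    refine Nat.factorization_eq_zero_of_not_dvd fun hlu => ?_
    have := Nat.Coprime.eq_one_of_dvd (Nat.Coprime.coprime_dvd_right hlv (Nat.Coprime.coprime_dvd_left hlu huv)) dvd_rfl
    exact hl.one_lt.ne' this
  have hpos : ∀ l v : ℕ, l.Prime → l ∣ v → 1 ≤ v → 0 < v.factorization l := by
    intro l v hl hlv hv
    exact hl.factorization_pos_of_dvd (by omega) hlv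
  have hij : i = j := by
    rcases Nat.lt_or_ge 1 a with h3 | h3
    · obtain ⟨l, hl, hla⟩ := Nat.exists_prime_and_dvd (n := a) (by omega)
      have e := hfac l
      rw [hz l s a hl hla hsa, hz l t a hl hla hta, hz l b a hl hla hab.symm] at e
      simp only [zero_add, mul_zero, add_zero] at e
      exact Nat.eq_of_mul_eq_mul_right (hpos l a hl hla ha) e
    · have hb2 : b ≠ 1 := by omega
      obtain ⟨l, hl, hlb⟩ := Nat.exists_prime_and_dvd (n := b) hb2
      have e := hfac l
      rw [hz l s b hl hlb hsb, hz l t b hl hlb htb, hz l a b hl hlb hab] at e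
      simp only [zero_add, mul_zero] at e
      have := Nat.eq_of_mul_eq_mul_right (hpos l b hl hlb hb) e
      omega
  subst hij
  have h4 : s = t := by
    unfold GOA_e at h
    simp only at h
    have p1 : 0 < b ^ (L - i) := pow_pos (by omega) _
    have p2 : 0 < a ^ i := pow_pos (by omega) _
    exact Nat.eq_of_mul_eq_mul_right p2 (Nat.eq_of_mul_eq_mul_right p1 h)
  rw [h4]

theorem GOA : GOA_stmt := by
  classical
  intro hG ε hε
  obtain ⟨η, hη, h⟩ := hG ε hε
  refine ⟨⌈2 / η⌉₊ + 1, fun a b ha hb hab hne A hA => ?_⟩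
  set L : ℕ := ⌈2 / η⌉₊ + 1 with hL
  have hL1 : 1 ≤ L := by omega
  have hLr : (1 : ℝ) ≤ L := by exact_mod_cast hL1
  have hLη : 2 ≤ η * L := by
    have h1 : 2 / η ≤ L := (Nat.le_ceil _).trans (by rw [hL]; push_cast; linarith)
    rw [div_le_iff₀ hη] at h1
    linarith
  set F : Finset ℕ := (A ×ˢ range L).image (GOA_e a b L) with hF
  have hinj := GOA_inj a b L ha hb hab hne A hA
  have hcard : #F = #A * L := by
    rw [hF, card_image_of_injOn hinj, card_product, card_range]
  have hpos : ∀ q ∈ A ×ˢ range L, 0 < GOA_e a b L q := by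
    intro q hq
    rw [mem_product] at hq
    unfold GOA_e
    have h1 := (hA _ hq.1).1
    have h2 : 0 < a ^ q.2 := pow_pos (by omega) _
    have h3 : 0 < b ^ (L - q.2) := pow_pos (by omega) _
    positivity
  have hF0 : ∀ s ∈ F, 0 < s := by
    intro s hs
    obtain ⟨q, hq, rfl⟩ := mem_image.1 hs
    exact hpos q hq
  -- the quotients
  have hQ : (#(QF F) : ℝ) ≤ η * (#F : ℝ) ^ 2 := by
    have hsub : QF F ⊆ ((A ×ˢ A) ×ˢ (Ioo (-(L : ℤ)) L)).image
        (fun t => ((t.1.1 : ℚ) / t.1.2) * ((a : ℚ) / b) ^ t.2) := by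
      intro z hz
      obtain ⟨p, hp, rfl⟩ := mem_image.1 hz
      rw [mem_product] at hp
      obtain ⟨q, hq, hq'⟩ := mem_image.1 hp.1
      obtain ⟨r, hr, hr'⟩ := mem_image.1 hp.2
      rw [mem_product, mem_range] at hq hr
      refine mem_image.2 ⟨((q.1, r.1), (q.2 : ℤ) - r.2), ?_, ?_⟩
      · rw [mem_product, mem_product, mem_Ioo]
        refine ⟨⟨hq.1, hr.1⟩, ?_, ?_⟩
        · simp only
          omega
        · simp only
          omega
      · simp only
        rw [← hq', ← hr']
        unfold GOA_e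
        have ha0 : (a : ℚ) ≠ 0 := by
          have : a ≠ 0 := by omega
          exact_mod_cast this
        have hb0 : (b : ℚ) ≠ 0 := by
          have : b ≠ 0 := by omega
          exact_mod_cast this
        have hr0 : ((r.1 : ℕ) : ℚ) ≠ 0 := by
          have : r.1 ≠ 0 := (hA _ hr.1).1.ne'
          exact_mod_cast this
        push_cast
        rw [div_zpow, zpow_sub₀ ha0, zpow_sub₀ hb0, zpow_natCast, zpow_natCast, zpow_natCast, zpow_natCast]
        have e1 : (b : ℚ) ^ L = (b : ℚ) ^ (L - q.2) * (b : ℚ) ^ q.2 := by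
          rw [← pow_add]
          congr 1
          omega
        have e2 : (b : ℚ) ^ L = (b : ℚ) ^ (L - r.2) * (b : ℚ) ^ r.2 := by
          rw [← pow_add]
          congr 1
          omega
        have e3 : (b : ℚ) ^ (L - q.2) * (b : ℚ) ^ q.2 = (b : ℚ) ^ (L - r.2) * (b : ℚ) ^ r.2 := by rw [← e1, e2]
        have n1 : (a : ℚ) ^ q.2 ≠ 0 := pow_ne_zero _ ha0
        have n2 : (a : ℚ) ^ r.2 ≠ 0 := pow_ne_zero _ ha0
        have n3 : (b : ℚ) ^ q.2 ≠ 0 := pow_ne_zero _ hb0
        have n4 : (b : ℚ) ^ r.2 ≠ 0 := pow_ne_zero _ hb0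
        have n5 : (b : ℚ) ^ (L - q.2) ≠ 0 := pow_ne_zero _ hb0
        have n6 : (b : ℚ) ^ (L - r.2) ≠ 0 := pow_ne_zero _ hb0
        have e4 : (q.1 : ℚ) / r.1 * ((a : ℚ) ^ q.2 / (a : ℚ) ^ r.2 / ((b : ℚ) ^ q.2 / (b : ℚ) ^ r.2)) =
            (q.1 * (a : ℚ) ^ q.2 * (b : ℚ) ^ r.2) / (r.1 * (a : ℚ) ^ r.2 * (b : ℚ) ^ q.2) := by
          field_simp
        rw [e4, div_eq_div_iff (mul_ne_zero (mul_ne_zero hr0 n2) n3) (mul_ne_zero (mul_ne_zero hr0 n2) n6)]
        linear_combination (-((q.1 : ℚ) * (a : ℚ) ^ q.2 * (a : ℚ) ^ r.2 * (r.1 : ℚ))) * e3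
    have hc : #(QF F) ≤ #A * #A * (2 * L - 1) := by
      refine (card_le_card hsub).trans (card_image_le.trans (le_of_eq ?_))
      rw [card_product, card_product, Int.card_Ioo]
      congr 1
      omega
    have hc' : (#(QF F) : ℝ) ≤ (#A : ℝ) ^ 2 * (2 * L) := by
      have h1 : #(QF F) ≤ #A * #A * (2 * L) := hc.trans (Nat.mul_le_mul_left _ (by omega))
      have h2 : (#(QF F) : ℝ) ≤ ((#A * #A * (2 * L) : ℕ) : ℝ) := by exact_mod_cast h1
      push_cast at h2
      linarith [sq (#A : ℝ)]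
    refine hc'.trans ?_
    rw [hcard]
    push_cast
    have h3 : (0 : ℝ) ≤ (#A : ℝ) ^ 2 * L := by positivity
    nlinarith
  have hmain := h F hF0 hQ
  -- the good pairs
  set S : Finset (ℕ × ℕ) := {p ∈ A ×ˢ A | ∃ m < L, GQ ε (a ^ m * p.1) (b ^ m * p.2) ∨ GQ ε (b ^ m * p.1) (a ^ m * p.2)} with hS
  have hgood : #{p ∈ F ×ˢ F | GQ ε p.1 p.2} ≤ #S * (L * L) := by
    have hsub : {p ∈ F ×ˢ F | GQ ε p.1 p.2} ⊆ (S ×ˢ (range L ×ˢ range L)).image
        (fun t => (GOA_e a b L (t.1.1, t.2.1), GOA_e a b L (t.1.2, t.2.2))) := by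
      intro p hp
      rw [mem_filter, mem_product] at hp
      obtain ⟨⟨hp1, hp2⟩, hp3⟩ := hp
      obtain ⟨⟨s, i⟩, hq, hq'⟩ := mem_image.1 hp1
      obtain ⟨⟨t, j⟩, hr, hr'⟩ := mem_image.1 hp2
      rw [mem_product, mem_range] at hq hr
      simp only at hq hr
      refine mem_image.2 ⟨((s, t), (i, j)), ?_, ?_⟩
      · rw [mem_product, mem_product, mem_range, mem_range]
        refine ⟨?_, hq.2, hr.2⟩
        rw [hS, mem_filter, mem_product]
        refine ⟨⟨hq.1, hr.1⟩, ?_⟩
        rw [← hq', ← hr'] at hp3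
        rcases le_total j i with hji | hij
        · refine ⟨i - j, by omega, Or.inl ?_⟩
          have c0 : 0 < a ^ j * b ^ (L - i) := by
            have h2 : 0 < a ^ j := pow_pos (by omega) _
            have h3 : 0 < b ^ (L - i) := pow_pos (by omega) _
            positivity
          rw [← GOA_GQ ε _ _ _ c0]
          have e1 : a ^ j * b ^ (L - i) * (a ^ (i - j) * s) = GOA_e a b L (s, i) := by
            unfold GOA_e
            simp only
            have : a ^ i = a ^ j * a ^ (i - j) := by rw [← pow_add]; congr 1; omega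
            rw [this]
            ring
          have e2 : a ^ j * b ^ (L - i) * (b ^ (i - j) * t) = GOA_e a b L (t, j) := by
            unfold GOA_e
            simp only
            have : b ^ (L - j) = b ^ (L - i) * b ^ (i - j) := by rw [← pow_add]; congr 1; omega
            rw [this]
            ring
          rw [e1, e2]
          exact hp3
        · refine ⟨j - i, by omega, Or.inr ?_⟩
          have c0 : 0 < a ^ i * b ^ (L - j) := by
            have h2 : 0 < a ^ i := pow_pos (by omega) _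
            have h3 : 0 < b ^ (L - j) := pow_pos (by omega) _
            positivity
          rw [← GOA_GQ ε _ _ _ c0]
          have e1 : a ^ i * b ^ (L - j) * (b ^ (j - i) * s) = GOA_e a b L (s, i) := by
            unfold GOA_e
            simp only
            have : b ^ (L - i) = b ^ (L - j) * b ^ (j - i) := by rw [← pow_add]; congr 1; omega
            rw [this]
            ring
          have e2 : a ^ i * b ^ (L - j) * (a ^ (j - i) * t) = GOA_e a b L (t, j) := by
            unfold GOA_e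
            simp only
            have : a ^ j = a ^ i * a ^ (j - i) := by rw [← pow_add]; congr 1; omega
            rw [this]
            ring
          rw [e1, e2]
          exact hp3
      · simp only
        rw [hq', hr']
    refine (card_le_card hsub).trans (card_image_le.trans (le_of_eq ?_))
    rw [card_product, card_product, card_range]
  have h5 : (#{p ∈ F ×ˢ F | GQ ε p.1 p.2} : ℝ) ≤ (#S : ℝ) * (L * L) := by exact_mod_cast hgood
  have h6 : (1 / 3 - ε) * ((#A : ℝ) * L) ^ 2 ≤ (#S : ℝ) * (L * L) := by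
    have := hmain.trans h5
    rw [hcard] at this
    push_cast at this
    exact this
  have h7 : 0 < (L : ℝ) * L := by positivity
  have h8 : (1 / 3 - ε) * (#A : ℝ) ^ 2 * (L * L) ≤ (#S : ℝ) * (L * L) := by
    calc (1 / 3 - ε) * (#A : ℝ) ^ 2 * (L * L) = (1 / 3 - ε) * ((#A : ℝ) * L) ^ 2 := by ring
      _ ≤ _ := h6
  exact le_of_mul_le_mul_right h8 h7

end Pool.Agent.OM
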